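import Mathlib
import Pool.Agent.H5.Amp

namespace Pool.Agent.Results.MP_b525e0_co.Spider

open Finset Pool.Agent.H5.Amp SimpleGraph

open Classical in
theorem sum_act {V K : Type} [Fintype V] [Fintype K] (G : SimpleGraph V) (act : K → V → V → V)
    (hadj : ∀ k i j, G.Adj i j → G.Adj i (act k i j))
    (h1 : ∀ k i j j', G.Adj i j → G.Adj i j' → act k i j = act k i j' → j = j')
    (h2 : ∀ k k', (∀ i j, G.Adj i j → act k i j = act k' i j) → k = k')
    (hcard : Nat.card K = ∏ v, (Nat.card {j // G.Adj v j}).factorial)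
    (F : (G.Dart → G.Dart) → ℂ) :
    ∑ σ ∈ univ.filter (fun σ : Equiv.Perm G.Dart => ∀ d, (σ d).fst = d.fst), F σ =
      ∑ k, F (fun d => ⟨(d.fst, act k d.fst d.snd), hadj k _ _ d.adj⟩) := by
  let g : K → G.Dart → G.Dart := fun k d => ⟨(d.fst, act k d.fst d.snd), hadj k _ _ d.adj⟩
  have hg : ∀ k, Function.Bijective (g k) := by
    intro k
    apply Finite.injective_iff_bijective.1
    intro d d' h
    have e1 : (g k d).fst = (g k d').fst := congrArg (fun d : G.Dart => d.fst) h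
    change d.fst = d'.fst at e1
    have e2 : act k d.fst d.snd = act k d'.fst d'.snd := congrArg (fun d : G.Dart => d.snd) h
    rw [← e1] at e2
    exact Dart.ext _ _ (Prod.ext e1 (h1 k _ _ _ d.adj (e1 ▸ d'.adj) e2))
  let e : K → Equiv.Perm G.Dart := fun k => Equiv.ofBijective (g k) (hg k)
  have he : Function.Injective e := by
    intro k k' h
    apply h2
    intro i j hij
    exact congrArg (fun σ : Equiv.Perm G.Dart => (σ ⟨(i, j), hij⟩).snd) h
  have him : univ.image e =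
      univ.filter (fun σ : Equiv.Perm G.Dart => ∀ d, (σ d).fst = d.fst) := by
    apply eq_of_subset_of_card_le
    · intro σ hσ
      obtain ⟨k, -, rfl⟩ := mem_image.1 hσ
      exact mem_filter.2 ⟨mem_univ _, fun _ => rfl⟩
    · rw [card_image_of_injective _ he, card_univ, ← Nat.card_eq_fintype_card, hcard,
        ← Fintype.card_subtype, ← Nat.card_eq_fintype_card]
      have h3 := DomMulAct.stabilizer_card (fun d : G.Dart => d.fst)
      rw [← Nat.card_eq_fintype_card] at h3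
      apply le_of_eq
      refine (Nat.card_congr (Equiv.subtypeEquivRight (fun σ : Equiv.Perm G.Dart =>
        (funext_iff (f := (fun d : G.Dart => d.fst) ∘ σ)
          (g := fun d : G.Dart => d.fst)).symm))).trans (h3.trans ?_)
      apply prod_congr rfl
      intro v _
      rw [← Nat.card_eq_fintype_card]
      refine congrArg Nat.factorial (Nat.card_congr
        ⟨fun d => ⟨d.1.snd, by have := d.1.adj; rwa [show d.1.fst = v from d.2] at this⟩,
          fun j => ⟨⟨(v, j.1), j.2⟩, rfl⟩, ?_, fun _ => rfl⟩)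
      rintro ⟨d, rfl⟩
      rfl
  rw [← him, sum_image (fun _ _ _ _ h => he h)]
  rfl

def par (j : Fin 13) : Fin 13 := if j.val % 4 = 1 then 0 else j - 1

def Gr : SimpleGraph (Fin 13) := fromRel (fun i j => j ≠ 0 ∧ par j = i)

instance : DecidableRel Gr.Adj := fun i j =>
  decidable_of_iff (i ≠ j ∧ ((j ≠ 0 ∧ par j = i) ∨ (i ≠ 0 ∧ par i = j))) Iff.rfl

def fw : List Sp :=
  [(0, 0),
   (⟨40, 10⟩, ⟨160, 40⟩), (⟨0, 0⟩, ⟨170, 0⟩),
   (⟨102, 0⟩, ⟨136, 0⟩), (⟨53, 9⟩, ⟨159, 27⟩),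
   (⟨-119, -17⟩, ⟨119, 17⟩), (⟨-152, -4⟩, ⟨76, 2⟩),
   (⟨-119, -17⟩, ⟨119, 17⟩), (⟨170, 0⟩, ⟨0, 0⟩),
   (⟨160, 40⟩, ⟨40, 10⟩), (⟨152, 4⟩, ⟨76, 2⟩),
   (⟨170, 0⟩, ⟨0, 0⟩), (⟨159, 27⟩, ⟨53, 9⟩)]

def xs : List (ℤ × ℤ × ℤ) :=
  [(0, 0, 0), (-13600, 0, 25500), (-13600, 0, 54400), (-41344, 0, 62492),
   (-58684, 0, 85612), (28900, 0, 0), (52020, 0, -17340), (80920, 0, -17340),
   (80920, 0, -46240), (-13600, 0, -25500), (-36720, 0, -42840), (-36720, 0, -71740),
   (-54060, 0, -94860)]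

def X (i : Fin 13) : Fin 3 → ℤ := fun k =>
  if k = 0 then (xs.getD i (0, 0, 0)).1 else if k = 1 then (xs.getD i (0, 0, 0)).2.1
  else (xs.getD i (0, 0, 0)).2.2

def P (i j : Fin 13) : Sp :=
  if i ≠ 0 ∧ par i = j then fw.getD i (0, 0)
  else (-star (fw.getD j (0, 0)).2, star (fw.getD j (0, 0)).1)

def tb : List (List (Fin 13)) := [[1, 5, 9], [1, 9, 5], [5, 1, 9], [5, 9, 1], [9, 1, 5], [9, 5, 1]]

def loc (c : Fin 6) (i j : Fin 13) : Fin 13 :=
  if i = 0 then (tb.getD c []).getD (j.val / 4) 0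
  else if c = 0 ∨ i.val % 4 = 0 then j else par i + (i + 1) - j

abbrev K := Fin 6 × Fin 8 × Fin 8 × Fin 8

def sel (k : K) (i : Fin 13) : Fin 6 :=
  if i = 0 then k.1
  else if (if i.val < 5 then k.2.1 else if i.val < 9 then k.2.2.1 else k.2.2.2).val.testBit
    ((i.val - 1) % 4) then 1 else 0

def act (k : K) (i j : Fin 13) : Fin 13 := loc (sel k i) i j

def bit (g : Fin 13 → Fin 13 → Fin 13) (i : Fin 13) : ℕ := if g i (i + 1) = i + 1 then 0 else 1

def dec (g : Fin 13 → Fin 13 → Fin 13) : ℕ :=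
  tb.idxOf [g 0 1, g 0 5, g 0 9] + 6 * (bit g 1 + 2 * bit g 2 + 4 * bit g 3 + 8 * bit g 5 +
    16 * bit g 6 + 32 * bit g 7 + 64 * bit g 9 + 128 * bit g 10 + 256 * bit g 11)

lemma dec_act : ∀ (a : Fin 6) (b c d : Fin 8),
    dec (act (a, b, c, d)) = a.val + 6 * (b.val + 8 * c.val + 64 * d.val) := by decide +kernel

def term (k : K) : GaussianInt := ∏ i : Fin 12,
  om (P i.succ (act k i.succ (par i.succ))) (P (par i.succ) (act k (par i.succ) i.succ))

lemma val0 : (∑ a : Fin 6, ∑ b : Fin 8, ∑ c : Fin 8, ∑ d : Fin 8, term (a, b, c, d)) = 0 := by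
  decide +kernel

lemma val : (∑ k : K, term k) = 0 := by
  simp only [Fintype.sum_prod_type]
  exact val0

theorem result : ∃ (n : ℕ) (G : SimpleGraph (Fin n)) (x : Fin n → EuclideanSpace ℝ (Fin 3))
    (ψ : G.Dart → Fin 2 → ℂ) (Δ : Finset G.Dart),
    Admissible G x ∧ IsLift G x ψ ∧ IsOrientation G Δ ∧
    (∏ d ∈ Δ, omega (ψ d) (ψ d.symm)) ≠ 0 ∧ amp G ψ Δ = 0 := by
  classical
  have hg : ∀ i j, Gr.Adj i j → Good 170 (P i j) 1 (fun k => X j k - X i k) := by
    decide +kernel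
  have hab : ∀ i : Fin 12, Gr.Adj i.succ (par i.succ) := by decide +kernel
  have hinj : ∀ i i' : Fin 12, i.succ = i'.succ → par i.succ = par i'.succ → i = i' := by
    decide +kernel
  have hden : ∀ i : Fin 12, om (P i.succ (par i.succ)) (P (par i.succ) i.succ) = 28900 := by
    decide +kernel
  have l1 : ∀ c i j, Gr.Adj i j → Gr.Adj i (loc c i j) := by decide +kernel
  have l2 : ∀ c i j j', Gr.Adj i j → Gr.Adj i j' → loc c i j = loc c i j' → j = j' := by
    decide +kernel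
  have l3 : ∀ k k', (∀ i j, Gr.Adj i j → act k i j = act k' i j) → k = k' := by
    intro k k' h
    suffices hd : dec (act k) = dec (act k') by
      obtain ⟨a, b, c, d⟩ := k
      obtain ⟨a', b', c', d'⟩ := k'
      rw [dec_act, dec_act] at hd
      simp only [Prod.mk.injEq, Fin.ext_iff]
      omega
    have hb : ∀ i, Gr.Adj i (i + 1) → bit (act k) i = bit (act k') i := fun i hi => by
      unfold bit; rw [h i _ hi]
    unfold dec
    rw [h 0 1 (by decide), h 0 5 (by decide), h 0 9 (by decide), hb 1 (by decide),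
      hb 2 (by decide), hb 3 (by decide), hb 5 (by decide), hb 6 (by decide), hb 7 (by decide),
      hb 9 (by decide), hb 10 (by decide), hb 11 (by decide)]
  have l4 : Nat.card K = ∏ v, (Nat.card {j // Gr.Adj v j}).factorial := by
    simp only [Nat.card_eq_fintype_card, Fintype.card_subtype, Fintype.card_fin, Fintype.card_prod]
    decide +kernel
  refine ⟨13, Gr, fun i => pt (X i), fun d => sp 170 (P d.fst d.snd),
    univ.map (emb _ _ _ hab hinj),
    fun i j h => (good_lift 170 (by norm_num) _ _ _ _ (hg i j h)).1,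
    fun d => (good_lift 170 (by norm_num) _ _ _ _ (hg _ _ d.adj)).2,
    emb_orient _ _ _ hab hinj (by decide +kernel), ?_, ?_⟩
  · rw [prod_map, prod_ne_zero_iff]
    intro i _
    rw [omega_sp]
    simp only [emb, Function.Embedding.coeFn_mk, Dart.symm, Prod.swap]
    rw [hden i, map_ofNat]
    norm_num
  · have h := sum_act Gr act (fun k i j => l1 _ i j) (fun k i j j' => l2 _ i j j') l3 l4
      (fun τ => ∏ d ∈ univ.map (emb Gr _ _ hab hinj),
        omega (sp 170 (P (τ d).fst (τ d).snd)) (sp 170 (P (τ d.symm).fst (τ d.symm).snd)))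
    unfold amp
    refine (congrArg (· / _) (Eq.trans (sum_congr
      (Finset.ext fun σ => by simp only [mem_filter, mem_univ]) fun _ _ => rfl) h)).trans ?_
    beta_reduce
    rw [div_eq_zero_iff]
    left
    have hv := congrArg (fun z : GaussianInt => (z : ℂ) * ((((170 : ℕ) : ℂ) ^ 2)⁻¹) ^ 12) val
    simp only [map_zero, zero_mul] at hv
    rw [← hv, map_sum, sum_mul]
    apply sum_congr rfl
    intro k _
    rw [prod_map, term, map_prod, show ((((170 : ℕ) : ℂ) ^ 2)⁻¹) ^ 12 =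
      ∏ _i : Fin 12, (((170 : ℕ) : ℂ) ^ 2)⁻¹ by simp, ← prod_mul_distrib]
    apply prod_congr rfl
    intro i _
    rw [omega_sp]
    rfl

end Pool.Agent.Results.MP_b525e0_co.Spider
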